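import Pool.Agent.helper65.GD.SpecD

/-!
# MP_ea335c_an, row ZCN: number of zeros
-/

set_option autoImplicit false

namespace Pool.Agent.GD

open Finset Metric Filter Topology

/-- a continuous function with positive cosine changes by less than `2π` -/
theorem ZCN_cos (D : ℝ → ℝ) (hD : Continuous D) (hc : ∀ θ, 0 < Real.cos (D θ)) (x : ℝ) (m : ℤ)
    (h : D x = D 0 + 2 * Real.pi * m) : m = 0 := by
  have hpi := Real.pi_pos
  have hiv := intermediate_value_uIcc (f := D) (a := 0) (b := x) hD.continuousOn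
  rcases lt_trichotomy m 0 with hm | hm | hm
  · exfalso
    have h1 : (m : ℝ) ≤ -1 := by exact_mod_cast (show m ≤ -1 by omega)
    have h2 : D 0 - Real.pi ∈ Set.uIcc (D 0) (D x) := by
      rw [Set.mem_uIcc]
      right
      rw [h]
      constructor <;> nlinarith
    obtain ⟨θ, -, hθ⟩ := hiv h2
    have h3 := hc θ
    rw [hθ, Real.cos_sub_pi] at h3
    have h4 := hc 0
    linarith
  · exact hm
  · exfalso
    have h1 : (1 : ℝ) ≤ m := by exact_mod_cast (show 1 ≤ m by omega)
    have h2 : D 0 + Real.pi ∈ Set.uIcc (D 0) (D x) := by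
      rw [Set.mem_uIcc]
      left
      rw [h]
      constructor <;> nlinarith
    obtain ⟨θ, -, hθ⟩ := hiv h2
    have h3 := hc θ
    rw [hθ, Real.cos_add_pi] at h3
    have h4 := hc 0
    linarith

theorem ZCN (hARG : ARG_stmt) : ZCN_stmt := by
  intro h F r R S M p b a U g hh hF hre
  have hr0 : 0 < r := hh.1
  have hnorm : ∀ θ : ℝ, ‖circleMap 0 r θ‖ = r := by
    intro θ
    rw [norm_circleMap_zero, abs_of_pos hr0]
  obtain ⟨Θf, hfd', hfe, hf2⟩ := hARG F r S p a g hF
  obtain ⟨Θh, hhd, hhe, hh2⟩ := hARG h r R M b U hh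
  have hcf : Continuous Θf := continuous_iff_continuousAt.2 fun θ => (hfd' θ).continuousAt
  have hch : Continuous Θh := continuous_iff_continuousAt.2 fun θ => (hhd θ).continuousAt
  have hcos : ∀ θ, 0 < Real.cos (Θh θ - Θf θ) := by
    intro θ
    set z := circleMap 0 r θ with hz
    have hzr := hre z (hnorm θ)
    have hf0 : F z ≠ 0 := by
      intro h0
      rw [h0, div_zero, Complex.zero_re] at hzr
      exact lt_irrefl _ hzr
    have hh0 : h z ≠ 0 := by
      intro h0
      rw [h0, zero_div, Complex.zero_re] at hzr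
      exact lt_irrefl _ hzr
    have hnf : 0 < ‖F z‖ := norm_pos_iff.2 hf0
    have hnh : 0 < ‖h z‖ := norm_pos_iff.2 hh0
    have h1 : h z / F z = ((‖h z‖ / ‖F z‖ : ℝ) : ℂ) *
        Complex.exp (((Θh θ - Θf θ : ℝ) : ℂ) * Complex.I) := by
      have e1 : h z = ‖h z‖ * Complex.exp (Complex.I * Θh θ) := hhe θ
      have e2 : F z = ‖F z‖ * Complex.exp (Complex.I * Θf θ) := hfe θ
      have e3 : (((Θh θ - Θf θ : ℝ) : ℂ) * Complex.I) = Complex.I * Θh θ - Complex.I * Θf θ := by
        push_cast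
        ring
      calc h z / F z = (‖h z‖ * Complex.exp (Complex.I * Θh θ)) /
            (‖F z‖ * Complex.exp (Complex.I * Θf θ)) := by rw [← e1, ← e2]
        _ = _ := by
          rw [e3, Complex.exp_sub]
          push_cast
          rw [mul_div_mul_comm]
    have h2 : (h z / F z).re = ‖h z‖ / ‖F z‖ * Real.cos (Θh θ - Θf θ) := by
      rw [h1, Complex.re_ofReal_mul, Complex.exp_ofReal_mul_I_re]
    rw [h2] at hzr
    exact (mul_pos_iff_of_pos_left (div_pos hnh hnf)).1 hzr
  have h1 := ZCN_cos (fun θ => Θh θ - Θf θ) (hch.sub hcf) hcos (2 * Real.pi) ((M : ℤ) - p) (by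
    simp only [hf2, hh2]
    push_cast
    ring)
  omega

end Pool.Agent.GD
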